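import Pool.Agent.H79.BN.Targets2

/-!
Row F6: the angle criterion for quadrilaterals.
-/

set_option autoImplicit false

open MeasureTheory Set Filter Topology Pool.Agent.H93.BL Pool.Agent.H79.BN

namespace Pool.Agent.H80.BN

lemma add_two_ne (i : Fin 4) : i + 2 ≠ i := by
  revert i
  decide

lemma add_two_ne' (i : Fin 4) : i + 2 ≠ i + 1 := by
  revert i
  decide

lemma vert_ne {w : Fin 4 → ℂ} (h : ConvPos w) (i : Fin 4) : w (i + 1) ≠ w i := by
  intro he
  have h3 := h i (i + 2) (add_two_ne i) (add_two_ne' i)
  have h4 : ed w i = 0 := by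
    unfold ed
    rw [he, sub_self]
  rw [h4] at h3
  unfold cr at h3
  simp at h3

theorem f6 : T_F6 := by
  intro w hw hq e i hi hi1
  rw [mem_singleton_iff] at hi hi1
  have hcase : e = i + 3 ∨ e = i + 2 := by
    revert e i
    decide
  have hang0 : ∀ a b : ℂ, a ≠ b → EuclideanGeometry.angle a b a = 0 := by
    intro a b hab
    exact EuclideanGeometry.angle_self_of_ne hab
  rcases hcase with rfl | rfl
  · refine ⟨EuclideanGeometry.angle (w (i + 2)) (w (i + 1)) (w (i + 3)),
      EuclideanGeometry.angle_nonneg _ _ _, Or.inl ?_, hq i _ (Or.inr rfl)⟩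
    intro k hk hki hki1
    rw [mem_singleton_iff] at hk
    have h1 : k = i + 2 := by
      clear hw hq hang0 w hi hi1
      revert k i
      decide
    have h2 : i + 2 + 1 = i + 3 := by
      clear hw hq hang0 w hi hi1 hk hki hki1 h1
      revert i
      decide
    have h3 : w (i + 2) ≠ w (i + 1) := by
      have h4 := vert_ne hw (i + 1)
      have h5 : i + 1 + 1 = i + 2 := by
        clear h4 hw hq hang0 w hi hi1 hk hki hki1 h1 h2
        revert i
        decide
      rw [h5] at h4
      exact h4
    subst h1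
    rw [h2, hang0 _ _ h3]
    exact ⟨EuclideanGeometry.angle_nonneg _ _ _, le_rfl⟩
  · refine ⟨EuclideanGeometry.angle (w i) (w (i + 1)) (w (i + 3)),
      EuclideanGeometry.angle_nonneg _ _ _, Or.inr ?_, hq i _ (Or.inl rfl)⟩
    intro k hk hki hki1
    rw [mem_singleton_iff] at hk
    have h1 : k = i + 3 := by
      clear hw hq hang0 w hi hi1
      revert k i
      decide
    have h2 : i + 3 + 1 = i := by
      clear hw hq hang0 w hi hi1 hk hki hki1 h1
      revert i
      decide
    have h3 : w i ≠ w (i + 1) := (vert_ne hw i).symm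
    subst h1
    rw [h2, hang0 _ _ h3]
    exact ⟨le_rfl, EuclideanGeometry.angle_nonneg _ _ _⟩

end Pool.Agent.H80.BN
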